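import Pool.Agent.H34.G1.LinkCM
import Pool.Agent.H95.G1N.Main
import Pool.Agent.H96.G1N.SecN
import Pool.Agent.H2.G1.T1

/-! The arc complex of the torus with two holes. -/

namespace Pool.Agent.H34.G1

open Pool.Agent.H34.PLE Pool.Agent.H96.Arc Pool.Agent.H95.TB Pool.Agent.H2.G1

theorem toM : PLHomeo (arcComplex 1 2 0) (glueL 7 24 Pool.Agent.H95.G1N.rowsM) :=
  (A120.homeo.trans C.homeo).trans LinkCM.homeo

theorem hopf : Nonempty ((arcComplex 1 2 0).Real ≃ₜ HopfSphere 3) := by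
  obtain ⟨e⟩ := toM.homeomorph
  obtain ⟨S⟩ := Pool.Agent.H96.G1N.secN
  obtain ⟨f⟩ := Pool.Agent.H95.G1N.homeo S
  obtain ⟨g⟩ := wSphere_homeo
  exact ⟨(e.trans f).trans g⟩

end Pool.Agent.H34.G1
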